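import Pool.Agent.Q263.InvT.LowE

/-!
# The inverse Turán number of paths of even length

For every `t ≥ 2`, the largest number of edges of a graph in which every subgraph with `k` edges
contains a path with `2 t` edges is `k ^ 2 / (2 t (t - 1)) + o(k ^ 2)`.

Outline of the upper bound. Let `G` be such a graph. As for paths of odd length, disjoint subgraphs
`K_{t - 1, m}` of `G` are chosen such that the number of leaves minus `s` times the number of blocks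
is as large as possible; then almost all edges of `G` lie inside the set `L` of the leaves. For
disjoint sets `B` of `2 t` vertices in `L`, the edges of `G` inside these sets together with the
edges of the blocks at the other leaves contain no path with `2 t` edges. So
`(t - 1) |L| + ∑ (e(B) - 2 t (t - 1)) < k`. Sets with
`∑ (e(B) - 2 t (t - 1)) ≥ t e(L) / |L| - (t - 1) |L| / 2 - o(k)` are found with a fractional packing
of cliques with vertex weights `1` and `2` in a random sample of vertices and Erdős's box theorem.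
The inequality between the arithmetic and the geometric mean then gives
`e(L) ≤ k ^ 2 / (2 t (t - 1)) + o(k ^ 2)`.

The lower bound comes from the complete `t`-partite graph with `⌊(k - 1) / (t - 1)⌋` vertices.
-/

set_option autoImplicit false
open Finset
open scoped Classical

namespace Pool.Agent.Results.MP_69c6fe_co.InverseEvenPaths

open Pool.Agent.Q263.InvT

/-- `ex(G, F)`: the largest number of edges of a subgraph of `G` that contains no copy of `F`. -/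
noncomputable def exIn {n m : ℕ} (G : SimpleGraph (Fin n)) (F : SimpleGraph (Fin m)) : ℕ :=
  sSup {e | ∃ H : SimpleGraph (Fin n), H ≤ G ∧ F.Free H ∧ H.edgeSet.ncard = e}

/-- The inverse Turán number: the supremum of the numbers of edges of the finite graphs `G` with
`ex(G, F) < k`. -/
noncomputable def invTuran {m : ℕ} (k : ℕ) (F : SimpleGraph (Fin m)) : ℕ∞ :=
  ⨆ (n : ℕ) (G : SimpleGraph (Fin n)) (_ : exIn G F < k), (G.edgeSet.ncard : ℕ∞)

theorem small_of_exIn {n t k : ℕ} {G : SimpleGraph (Fin n)}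
    (h : exIn G (SimpleGraph.pathGraph (2 * t + 1)) < k) : SmallE G t k := by
  intro H hH hfree
  refine lt_of_le_of_lt ?_ h
  apply le_csSup
  · refine ⟨G.edgeSet.ncard, ?_⟩
    rintro e ⟨H', hH', -, rfl⟩
    exact Set.ncard_le_ncard (SimpleGraph.edgeSet_mono hH') (Set.toFinite _)
  · exact ⟨H, hH, hfree, rfl⟩

/-- Complete multipartite graphs. -/
theorem exIn_turan {t n k : ℕ} (ht : 2 ≤ t) (hk : (t - 1) * n < k) :
    exIn (SimpleGraph.turanGraph n t) (SimpleGraph.pathGraph (2 * t + 1)) < k := by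
  refine lt_of_le_of_lt ?_ hk
  apply csSup_le'
  rintro e ⟨H, hH, hfree, rfl⟩
  have h := few_edges' (G := H) ht (fun v => ⟨v.val % t, Nat.mod_lt _ (by omega)⟩) (by
    intro x y hxy h
    have h1 := hH hxy
    rw [SimpleGraph.turanGraph_adj] at h1
    exact h1 (congrArg Fin.val h)) hfree
  rw [Fintype.card_fin] at h
  exact h

theorem bound_aux {t n M x s : ℕ} {η : ℝ} (hη : 0 < η) (ht : 1 ≤ t) (hn : n ≤ M)
    (hx : (x - t * n) ^ t ≤ s * n ^ (2 * t - 1)) (hM : (s : ℝ) < η ^ t * M) :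
    (x : ℝ) ≤ t * M + η * (M : ℝ) ^ 2 := by
  by_contra hcon
  push Not at hcon
  have hMpos : (0 : ℝ) < M := by
    rcases Nat.eq_zero_or_pos M with h | h
    · rw [h] at hM
      have : (0 : ℝ) ≤ (s : ℝ) := by positivity
      simp at hM
      linarith
    · exact_mod_cast h
  have hnM : (n : ℝ) ≤ M := by exact_mod_cast hn
  have h1 : η * (M : ℝ) ^ 2 ≤ ((x - t * n : ℕ) : ℝ) := by
    have h2 : (x : ℝ) ≤ ((x - t * n : ℕ) : ℝ) + (t : ℝ) * n := by
      have : x ≤ (x - t * n) + t * n := by omega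
      exact_mod_cast this
    have h3 : (t : ℝ) * n ≤ t * M := by gcongr
    linarith
  have h2 : (η * (M : ℝ) ^ 2) ^ t ≤ s * (M : ℝ) ^ (2 * t - 1) := by
    calc (η * (M : ℝ) ^ 2) ^ t ≤ ((x - t * n : ℕ) : ℝ) ^ t := by gcongr
      _ = (((x - t * n) ^ t : ℕ) : ℝ) := by push_cast; ring
      _ ≤ ((s * n ^ (2 * t - 1) : ℕ) : ℝ) := by exact_mod_cast hx
      _ = (s : ℝ) * (n : ℝ) ^ (2 * t - 1) := by push_cast; ring
      _ ≤ s * (M : ℝ) ^ (2 * t - 1) := by gcongr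
  have h3 : (η * (M : ℝ) ^ 2) ^ t = (η ^ t * M) * (M : ℝ) ^ (2 * t - 1) := by
    rw [mul_pow, ← pow_mul, mul_assoc, ← pow_succ']
    congr 2
    omega
  rw [h3] at h2
  have h4 : η ^ t * M ≤ s := le_of_mul_le_mul_right h2 (by positivity)
  linarith

theorem real_bound {t k N E δ : ℝ} (htr : 2 ≤ t) (hδ : 0 < δ) (hδ1 : δ ≤ 1) (hN : 0 < N)
    (hE0 : 0 ≤ E)
    (h5 : (t - 1) * N / 2 + t * E / (2 * N) ≤ k * (1 + 2 * δ)) :
    E / 2 ≤ k ^ 2 / (2 * t * (t - 1)) + 2 * δ * k ^ 2 := by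
  have htt : 2 ≤ t * (t - 1) := by nlinarith
  obtain ⟨A, hA⟩ : ∃ A, A = (t - 1) * N / 2 := ⟨_, rfl⟩
  obtain ⟨B, hB⟩ : ∃ B, B = t * E / (2 * N) := ⟨_, rfl⟩
  have hA0 : 0 ≤ A := by rw [hA]; nlinarith
  have hB0 : 0 ≤ B := by rw [hB]; positivity
  rw [← hA, ← hB] at h5
  have h6 : A * B = t * (t - 1) * E / 4 := by
    rw [hA, hB]; field_simp; ring
  have h7 : t * (t - 1) * E ≤ k ^ 2 * (1 + 8 * δ) := by
    have h8 : (A + B) ^ 2 ≤ (k * (1 + 2 * δ)) ^ 2 := by gcongr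
    have h9 : 4 * (A * B) ≤ (A + B) ^ 2 := by nlinarith [sq_nonneg (A - B)]
    have h10 : (k * (1 + 2 * δ)) ^ 2 ≤ k ^ 2 * (1 + 8 * δ) := by
      rw [mul_pow]
      apply mul_le_mul_of_nonneg_left _ (by positivity)
      nlinarith
    rw [h6] at h9
    linarith
  have h8 : k ^ 2 / (2 * t * (t - 1)) + 2 * δ * k ^ 2 =
      (k ^ 2 + 4 * δ * k ^ 2 * (t * (t - 1))) / (2 * (t * (t - 1))) := by
    have h1 : t - 1 ≠ 0 := by linarith
    have h2 : t ≠ 0 := by linarith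
    field_simp
    ring
  rw [h8, le_div_iff₀ (by linarith)]
  have h9 : 0 ≤ δ * k ^ 2 := by positivity
  have h10 : δ * k ^ 2 * 2 ≤ δ * k ^ 2 * (t * (t - 1)) := mul_le_mul_of_nonneg_left htt h9
  linarith

/-- The number of edges inside the set of the leaves. -/
theorem leaves_bound {t k : ℕ} {δ C : ℝ} (ht : 2 ≤ t) (hδ : 0 < δ) (hδ1 : δ ≤ 1)
    (hgain : ∀ (V : Type) [Fintype V] (G : SimpleGraph V) (R : Finset V),
      ∃ 𝓑 : Finset (Finset V), (∀ B ∈ 𝓑, B.card = 2 * t) ∧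
      (∀ B ∈ 𝓑, B ⊆ R) ∧ (∀ B ∈ 𝓑, ∀ B' ∈ 𝓑, B ≠ B' → Disjoint B B') ∧
      Psi G t δ R - C ≤ ∑ B ∈ 𝓑, gv G t B)
    (hkC : C ≤ δ * k) {V : Type} [Fintype V] {G : SimpleGraph V} (hG : SmallE G t k)
    {L : Finset V} {b : V → Finset V} (hcfg : Cfg G (t - 1) L b)
    (hL : (t - 1) * L.card < k) :
    (E2 G L : ℝ) / 2 ≤ (k : ℝ) ^ 2 / (2 * t * (t - 1)) + 2 * δ * (k : ℝ) ^ 2 := by
  have htr : (2 : ℝ) ≤ t := by exact_mod_cast ht
  have hE : (E2 G L : ℝ) ≤ (L.card : ℝ) ^ 2 := by exact_mod_cast E2_le L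
  have hkr : (0 : ℝ) ≤ k := by positivity
  rcases Nat.eq_zero_or_pos L.card with h0 | hpos
  · rw [h0] at hE
    have h3 : (E2 G L : ℝ) ≤ 0 := by simpa using hE
    have h1 : 0 ≤ (k : ℝ) ^ 2 / (2 * t * (t - 1)) := by
      apply div_nonneg (by positivity)
      nlinarith
    have h2 : 0 ≤ 2 * δ * (k : ℝ) ^ 2 := by positivity
    linarith
  obtain ⟨𝓑, hB1, hB2, hB3, hB4⟩ := hgain V G L
  have h1 := comb_card ht hcfg hB1 hB2 hB3
  have hle : cg (L \ 𝓑.biUnion id) b ⊔ bg G 𝓑 ≤ G :=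
    sup_le (cg_le (hcfg.mono sdiff_subset)) fun x y h => h.1
  have h2 := hG _ hle (comb_free ht hcfg hB1 hB2 hB3)
  have h2r : ((cg (L \ 𝓑.biUnion id) b ⊔ bg G 𝓑).edgeSet.ncard : ℝ) < k := by exact_mod_cast h2
  have hN : (0 : ℝ) < L.card := by exact_mod_cast hpos
  have hLk : (L.card : ℝ) ≤ k := by
    have : L.card ≤ k := by
      have h3 : 1 * L.card ≤ (t - 1) * L.card := Nat.mul_le_mul_right _ (by omega)
      omega
    exact_mod_cast this
  unfold Psi at hB4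
  have h4 : δ * (L.card : ℝ) ≤ δ * k := by gcongr
  refine real_bound htr hδ hδ1 hN (by positivity) ?_
  generalize (L.card : ℝ) = N at *
  generalize (E2 G L : ℝ) = E at *
  generalize ∑ B ∈ 𝓑, gv G t B = S at *
  generalize ((cg (L \ 𝓑.biUnion id) b ⊔ bg G 𝓑).edgeSet.ncard : ℝ) = M at *
  generalize (t : ℝ) * E / (2 * N) = Q at *
  have h6 : ((t : ℝ) - 1) * N / 2 + Q < k + δ * N + C := by linarith
  linarith

theorem upper {t k s : ℕ} {η δ C : ℝ} (ht : 2 ≤ t) (hδ : 0 < δ) (hδ1 : δ ≤ 1)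
    (hgain : ∀ (V : Type) [Fintype V] (G : SimpleGraph V) (R : Finset V),
      ∃ 𝓑 : Finset (Finset V), (∀ B ∈ 𝓑, B.card = 2 * t) ∧
      (∀ B ∈ 𝓑, B ⊆ R) ∧ (∀ B ∈ 𝓑, ∀ B' ∈ 𝓑, B ≠ B' → Disjoint B B') ∧
      Psi G t δ R - C ≤ ∑ B ∈ 𝓑, gv G t B)
    (hkC : C ≤ δ * k) (hη : 0 < η) (hs : 1 ≤ s)
    (hk : (s : ℝ) + t < η ^ (t - 1) * (2 * k)) {n : ℕ} {G : SimpleGraph (Fin n)}
    (hG : SmallE G t k) :
    (G.edgeSet.ncard : ℝ) ≤ (k : ℝ) ^ 2 / (2 * t * (t - 1)) + (2 * δ + 2 / s + 6 * η) * (k : ℝ) ^ 2 +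
      3 * t * k := by
  obtain ⟨L, b, x, y, h, n', hcfg, ha, hn, hh, hx, hy, he⟩ :=
    core' (s := s) (by omega : 1 ≤ t - 1) (small_of_smallE ht hG)
  have ht1 : ((t - 1 : ℕ) : ℝ) ≤ t := by exact_mod_cast Nat.sub_le t 1
  have hx' := bound_aux hη (by omega) hn hx (by
    push_cast
    have : (0 : ℝ) ≤ t := by positivity
    linarith)
  have hy' := bound_aux hη (by omega) hn hy (by rw [Nat.cast_add]; push_cast at hk ⊢; linarith)
  have hE := leaves_bound ht hδ hδ1 hgain hkC hG hcfg ha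
  have hsp : (0 : ℝ) < s := by exact_mod_cast hs
  have hh' : (h : ℝ) ≤ k / s := by
    rw [le_div_iff₀ hsp]
    have : ((s * h : ℕ) : ℝ) ≤ k := by exact_mod_cast hh
    push_cast at this
    linarith
  have hn' : (n' : ℝ) ≤ 2 * k := by exact_mod_cast hn
  have he' : (2 : ℝ) * G.edgeSet.ncard ≤ E2 G L + 2 * (h * n') + x + 2 * y := by exact_mod_cast he
  have h2 : (h : ℝ) * n' ≤ (k / s) * (2 * k) := by gcongr
  have e2 : (k : ℝ) / s * (2 * k) = 2 / s * (k : ℝ) ^ 2 := by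
    field_simp
  rw [e2] at h2
  rw [Nat.cast_mul, Nat.cast_ofNat] at hx' hy'
  have hkr : (0 : ℝ) ≤ k := by positivity
  have h3 : ((t - 1 : ℕ) : ℝ) * (2 * k) ≤ t * (2 * k) := by gcongr
  nlinarith

/-- For every `t ≥ 2` the inverse Turán number of the path with `2 t` edges is
`k ^ 2 / (2 t (t - 1)) + o(k ^ 2)`. -/
theorem result (t : ℕ) (ht : 2 ≤ t) (ε : ℝ) (hε : 0 < ε) :
    ∃ K : ℕ, ∀ k : ℕ, K ≤ k → ∃ m : ℕ, invTuran k (SimpleGraph.pathGraph (2 * t + 1)) = (m : ℕ∞) ∧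
      |(m : ℝ) - (k : ℝ) ^ 2 / (2 * t * (t - 1))| ≤ ε * (k : ℝ) ^ 2 := by
  have htr : (2 : ℝ) ≤ t := by exact_mod_cast ht
  have htp : (0 : ℝ) < t := by linarith
  have ht1 : (0 : ℝ) < (t : ℝ) - 1 := by linarith
  -- the constants
  obtain ⟨s, hs⟩ := exists_nat_gt (16 / ε)
  have hsp : (0 : ℝ) < s := lt_trans (by positivity) hs
  have hs1 : 1 ≤ s := by exact_mod_cast hsp
  obtain ⟨η, hη⟩ : ∃ η : ℝ, η = ε / 48 := ⟨_, rfl⟩
  have hηp : 0 < η := by rw [hη]; positivity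
  obtain ⟨δ, hδ⟩ : ∃ δ : ℝ, δ = min 1 (ε / 16) := ⟨_, rfl⟩
  have hδp : 0 < δ := by rw [hδ]; exact lt_min one_pos (by positivity)
  have hδ1 : δ ≤ 1 := by rw [hδ]; exact min_le_left _ _
  have hδε : δ ≤ ε / 16 := by rw [hδ]; exact min_le_right _ _
  obtain ⟨C, hC, hgain⟩ := gain (t := t) (by omega) hδp
  obtain ⟨K1, hK1⟩ := exists_nat_gt (((s : ℝ) + t) / η ^ (t - 1))
  obtain ⟨K2, hK2⟩ := exists_nat_gt ((24 * (t : ℝ) + 20 + 2 * (t : ℝ) ^ 2) / ε)
  obtain ⟨K3, hK3⟩ := exists_nat_gt (C / δ)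
  refine ⟨max (max (max K1 K2) K3) (2 * t), fun k hk => ?_⟩
  have hk1 : K1 ≤ k :=
    le_trans (le_trans (le_trans (le_max_left _ _) (le_max_left _ _)) (le_max_left _ _)) hk
  have hk2 : K2 ≤ k :=
    le_trans (le_trans (le_trans (le_max_right _ _) (le_max_left _ _)) (le_max_left _ _)) hk
  have hk4 : K3 ≤ k := le_trans (le_trans (le_max_right _ _) (le_max_left _ _)) hk
  have hk3 : 2 * t ≤ k := le_trans (le_max_right _ _) hk
  have hkp : 0 < k := by omega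
  have hkr : (0 : ℝ) < k := by exact_mod_cast hkp
  have hk1r : (1 : ℝ) ≤ k := by exact_mod_cast hkp
  have hk1' : (s : ℝ) + t < η ^ (t - 1) * (2 * k) := by
    have h1 : ((s : ℝ) + t) / η ^ (t - 1) < k := lt_of_lt_of_le hK1 (by exact_mod_cast hk1)
    rw [div_lt_iff₀ (by positivity)] at h1
    have h2 : 0 < (k : ℝ) * η ^ (t - 1) := by positivity
    linarith
  have hk2' : (24 * (t : ℝ) + 20 + 2 * (t : ℝ) ^ 2) * k ≤ ε * (k : ℝ) ^ 2 := by
    have h1 : (24 * (t : ℝ) + 20 + 2 * (t : ℝ) ^ 2) / ε < k :=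
      lt_of_lt_of_le hK2 (by exact_mod_cast hk2)
    rw [div_lt_iff₀ hε] at h1
    nlinarith
  have hkC : C ≤ δ * k := by
    have h1 : C / δ < k := lt_of_lt_of_le hK3 (by exact_mod_cast hk4)
    rw [div_lt_iff₀ hδp] at h1
    linarith
  have hs2 : 2 / (s : ℝ) ≤ ε / 8 := by
    rw [div_le_div_iff₀ hsp (by norm_num)]
    rw [div_lt_iff₀ hε] at hs
    linarith
  -- the upper bound
  have hup : ∀ (n : ℕ) (G : SimpleGraph (Fin n)),
      exIn G (SimpleGraph.pathGraph (2 * t + 1)) < k →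
      (G.edgeSet.ncard : ℝ) ≤ (k : ℝ) ^ 2 / (2 * t * (t - 1)) + ε * (k : ℝ) ^ 2 := by
    intro n G hG
    have h1 := upper ht hδp hδ1 (fun V _ G R => hgain V G R) hkC hηp hs1 hk1' (small_of_exIn hG)
    have h2 : (2 * δ + 2 / (s : ℝ) + 6 * η) * (k : ℝ) ^ 2 ≤ (ε / 2) * (k : ℝ) ^ 2 := by
      apply mul_le_mul_of_nonneg_right _ (by positivity)
      rw [hη]; linarith
    have h3 : 3 * (t : ℝ) * k ≤ ε / 2 * (k : ℝ) ^ 2 := by
      have : 6 * (t : ℝ) * k ≤ (24 * (t : ℝ) + 20 + 2 * (t : ℝ) ^ 2) * k := by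
        apply mul_le_mul_of_nonneg_right _ hkr.le
        nlinarith
      linarith
    linarith
  have hX0 : 0 ≤ (k : ℝ) ^ 2 / (2 * t * (t - 1)) := by positivity
  have hS : invTuran k (SimpleGraph.pathGraph (2 * t + 1)) ≤
      ((⌊(k : ℝ) ^ 2 / (2 * t * (t - 1)) + ε * (k : ℝ) ^ 2⌋₊ : ℕ) : ℕ∞) := by
    unfold invTuran
    refine iSup_le fun n => iSup_le fun G => iSup_le fun hG => ?_
    have := Nat.le_floor (hup n G hG)
    exact_mod_cast this
  have hfin : invTuran k (SimpleGraph.pathGraph (2 * t + 1)) ≠ ⊤ :=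
    ne_top_of_le_ne_top (ENat.natCast_ne_top _) hS
  refine ⟨(invTuran k (SimpleGraph.pathGraph (2 * t + 1))).toNat, (ENat.natCast_toNat hfin).symm, ?_⟩
  set m := (invTuran k (SimpleGraph.pathGraph (2 * t + 1))).toNat with hm
  have hmS : ((m : ℕ) : ℕ∞) = invTuran k (SimpleGraph.pathGraph (2 * t + 1)) :=
    ENat.natCast_toNat hfin
  have hmup : (m : ℝ) ≤ (k : ℝ) ^ 2 / (2 * t * (t - 1)) + ε * (k : ℝ) ^ 2 := by
    rw [← hmS] at hS
    have h1 : m ≤ ⌊(k : ℝ) ^ 2 / (2 * t * (t - 1)) + ε * (k : ℝ) ^ 2⌋₊ := by exact_mod_cast hS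
    exact (Nat.cast_le.mpr h1).trans (Nat.floor_le (by positivity))
  -- the lower bound
  obtain ⟨q, hq⟩ : ∃ q, q = (k - 1) / (t - 1) := ⟨_, rfl⟩
  have hqk : (t - 1) * q < k := by
    have : q * (t - 1) ≤ k - 1 := by rw [hq]; exact Nat.div_mul_le_self _ _
    rw [mul_comm]; omega
  have hlo : (SimpleGraph.turanGraph q t).edgeSet.ncard ≤ m := by
    have h1 := exIn_turan ht hqk
    have h2 : (((SimpleGraph.turanGraph q t).edgeSet.ncard : ℕ) : ℕ∞) ≤
        invTuran k (SimpleGraph.pathGraph (2 * t + 1)) := by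
      unfold invTuran
      exact le_iSup_of_le q (le_iSup_of_le _ (le_iSup_of_le h1 le_rfl))
    rw [← hmS] at h2
    exact_mod_cast h2
  have hed : ((q : ℝ) ^ 2 - (t : ℝ) ^ 2) * (t - 1) / (2 * t) - 1 ≤
      ((SimpleGraph.turanGraph q t).edgeSet.ncard : ℝ) := by
    have h1 : (q ^ 2 - (q % t) ^ 2) * (t - 1) / (2 * t) ≤
        (SimpleGraph.turanGraph q t).edgeSet.ncard := by
      have h3 := SimpleGraph.card_edgeFinset_turanGraph (n := q) (r := t)
      have h4 : (SimpleGraph.turanGraph q t).edgeSet.ncard =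
          (q ^ 2 - (q % t) ^ 2) * (t - 1) / (2 * t) + (q % t).choose 2 :=
        (@Set.ncard_eq_toFinset_card' (Sym2 (Fin q)) (SimpleGraph.turanGraph q t).edgeSet _).trans h3
      omega
    have h2 : (((q ^ 2 - (q % t) ^ 2) * (t - 1) : ℕ) : ℝ) / (2 * t) - 1 ≤
        (((q ^ 2 - (q % t) ^ 2) * (t - 1) / (2 * t) : ℕ) : ℝ) := by
      have h3 : (q ^ 2 - (q % t) ^ 2) * (t - 1) <
          ((q ^ 2 - (q % t) ^ 2) * (t - 1) / (2 * t) + 1) * (2 * t) := by
        have := Nat.lt_div_mul_add (a := (q ^ 2 - (q % t) ^ 2) * (t - 1)) (b := 2 * t) (by omega)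
        rw [add_mul, one_mul]
        exact this
      have h4 : (((q ^ 2 - (q % t) ^ 2) * (t - 1) : ℕ) : ℝ) <
          ((((q ^ 2 - (q % t) ^ 2) * (t - 1) / (2 * t) : ℕ) : ℝ) + 1) * (2 * t) := by
        exact_mod_cast h3
      have h5 : (((q ^ 2 - (q % t) ^ 2) * (t - 1) : ℕ) : ℝ) / (2 * t) <
          (((q ^ 2 - (q % t) ^ 2) * (t - 1) / (2 * t) : ℕ) : ℝ) + 1 := by
        rw [div_lt_iff₀ (by positivity)]
        exact h4
      linarith
    have h3 : ((q : ℝ) ^ 2 - (t : ℝ) ^ 2) * (t - 1) / (2 * t) ≤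
        (((q ^ 2 - (q % t) ^ 2) * (t - 1) : ℕ) : ℝ) / (2 * t) := by
      apply div_le_div_of_nonneg_right _ (by positivity)
      rw [Nat.cast_mul, Nat.cast_sub (by omega : 1 ≤ t), Nat.cast_one]
      apply mul_le_mul_of_nonneg_right _ ht1.le
      have h4 : (q : ℝ) ^ 2 ≤ ((q ^ 2 - (q % t) ^ 2 : ℕ) : ℝ) + (t : ℝ) ^ 2 := by
        have h5 : (q % t) ^ 2 ≤ t ^ 2 := Nat.pow_le_pow_left (Nat.mod_lt _ (by omega)).le 2
        have h6 : q ^ 2 ≤ (q ^ 2 - (q % t) ^ 2) + t ^ 2 := by omega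
        exact_mod_cast h6
      linarith
    have h4 : (((q ^ 2 - (q % t) ^ 2) * (t - 1) / (2 * t) : ℕ) : ℝ) ≤
        ((SimpleGraph.turanGraph q t).edgeSet.ncard : ℝ) := by exact_mod_cast h1
    linarith
  have hκ : (k : ℝ) / (t - 1) - 2 ≤ q := by
    have h1 : k - 1 < (q + 1) * (t - 1) := by
      have := Nat.lt_div_mul_add (a := k - 1) (b := t - 1) (by omega)
      rw [add_mul, one_mul, hq]
      exact this
    have h2 : k < (q + 1) * (t - 1) + 1 := by omega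
    have h3 : (k : ℝ) < (q + 1) * (t - 1) + 1 := by
      have : ((k : ℕ) : ℝ) < (((q + 1) * (t - 1) + 1 : ℕ) : ℝ) := by exact_mod_cast h2
      rw [Nat.cast_add, Nat.cast_mul, Nat.cast_sub (by omega : 1 ≤ t)] at this
      push_cast at this
      exact this
    rw [sub_le_iff_le_add, div_le_iff₀ ht1]
    nlinarith
  have hκ0 : 2 ≤ (k : ℝ) / (t - 1) := by
    rw [le_div_iff₀ ht1]
    have : (2 : ℝ) * t ≤ k := by exact_mod_cast hk3
    linarith
  have hlow : (k : ℝ) ^ 2 / (2 * t * (t - 1)) - (2 * k + (t : ℝ) ^ 2 + 1) ≤ m := by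
    have hm1 : ((SimpleGraph.turanGraph q t).edgeSet.ncard : ℝ) ≤ m := by exact_mod_cast hlo
    obtain ⟨κ, hκd⟩ : ∃ κ, κ = (k : ℝ) / (t - 1) := ⟨_, rfl⟩
    rw [← hκd] at hκ hκ0
    have h1 : κ ^ 2 - 4 * κ ≤ (q : ℝ) ^ 2 := by
      have : (κ - 2) ^ 2 ≤ (q : ℝ) ^ 2 := by
        apply pow_le_pow_left₀ (by linarith) hκ
      nlinarith
    have h2 : (k : ℝ) ^ 2 / (2 * t * (t - 1)) = κ ^ 2 * ((t - 1) / (2 * t)) := by
      rw [hκd]; field_simp
    have h3 : ((q : ℝ) ^ 2 - (t : ℝ) ^ 2) * (t - 1) / (2 * t) =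
        ((q : ℝ) ^ 2 - (t : ℝ) ^ 2) * ((t - 1) / (2 * t)) := by ring
    have h4 : ((t : ℝ) - 1) / (2 * t) ≤ 1 / 2 := by
      rw [div_le_iff₀ (by positivity)]
      linarith
    have h5 : 0 ≤ ((t : ℝ) - 1) / (2 * t) := by positivity
    have h6 : κ * ((t - 1) / (2 * t)) ≤ k / 2 := by
      rw [hκd]
      have : (k : ℝ) / (t - 1) * ((t - 1) / (2 * t)) = k / (2 * t) := by field_simp
      rw [this]
      apply div_le_div_of_nonneg_left hkr.le (by norm_num)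
      linarith
    have h7 : (t : ℝ) ^ 2 * ((t - 1) / (2 * t)) ≤ (t : ℝ) ^ 2 := by
      have : (t : ℝ) ^ 2 * ((t - 1) / (2 * t)) ≤ (t : ℝ) ^ 2 * 1 := by
        apply mul_le_mul_of_nonneg_left _ (by positivity)
        linarith
      linarith
    rw [h3] at hed
    rw [h2]
    have h8 : (κ ^ 2 - 4 * κ - (t : ℝ) ^ 2) * ((t - 1) / (2 * t)) ≤
        ((q : ℝ) ^ 2 - (t : ℝ) ^ 2) * ((t - 1) / (2 * t)) := by
      apply mul_le_mul_of_nonneg_right _ h5
      linarith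
    have h9 : (κ ^ 2 - 4 * κ - (t : ℝ) ^ 2) * ((t - 1) / (2 * t)) =
        κ ^ 2 * ((t - 1) / (2 * t)) - 4 * (κ * ((t - 1) / (2 * t))) -
          (t : ℝ) ^ 2 * ((t - 1) / (2 * t)) := by ring
    linarith
  rw [abs_le]
  constructor
  · have : 2 * (k : ℝ) + (t : ℝ) ^ 2 + 1 ≤ ε * (k : ℝ) ^ 2 := by
      have h1 : 2 * (k : ℝ) + (t : ℝ) ^ 2 + 1 ≤ (24 * (t : ℝ) + 20 + 2 * (t : ℝ) ^ 2) * k := by
        have h2 : (t : ℝ) ^ 2 * 1 ≤ (t : ℝ) ^ 2 * k := by gcongr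
        have h3 : 0 ≤ (t : ℝ) * k := by positivity
        nlinarith
      linarith
    linarith
  · linarith

end Pool.Agent.Results.MP_69c6fe_co.InverseEvenPaths
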